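import Pool.Agent.Helper71.CK.Goals

set_option autoImplicit false

namespace Pool.Agent.Helper26.CK

open Pool.Agent.CK

theorem other_gen : ∀ g : Fin 2, ∃ g' : Fin 2, ∀ x : Fin 2, (x = g') ↔ ¬ (x = g) := by
  decide

theorem main_prop (h1 : S_SHORT) (h2 : S_SPECIAL) (h3 : S_WORDS) (h4 : S_LABELS)
    (h5 : S_HGTNC) (h6 : S_HGTS) (h7 : S_MODULE) : S_MAIN := by
  intro D i hD hi
  obtain ⟨w1, w2, w3, w4, w5, w6, w7⟩ := h3
  obtain ⟨_, _, _, hsig⟩ := h5
  set K : ℕ := 4 * D * (2 * i + 1) with hK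
  set T : ℕ := ((K + 1) * (K + 1)) * ((2 * D + 1) * (D + 3)) with hT
  refine ⟨2 * D * (2 * (D + 3) + 1) ^ T + 1, ?_⟩
  intro m n hm hn W hW1 hW g
  obtain ⟨g', hg'⟩ := other_gen g
  -- the words
  choose L0 hL0v hL0a hL0n using w4
  set L : ℕ → List (Fin 2 × ℤ) := fun k => if k = 1 then [((0 : Fin 2), (m : ℤ)), (1, (n : ℤ))]
    else L0 (W k) with hLdef
  have hL1 : L 1 = [((0 : Fin 2), (m : ℤ)), (1, (n : ℤ))] := by simp [hLdef]
  have hm0 : (m : ℤ) ≠ 0 := by
    have : 1 ≤ m := le_trans (Nat.le_add_left 1 _) hm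
    omega
  have hn0 : (n : ℤ) ≠ 0 := by
    have : 1 ≤ n := le_trans (Nat.le_add_left 1 _) hn
    omega
  have hLv : ∀ k, val (L k) = W k := by
    intro k
    by_cases hk : k = 1
    · subst hk
      rw [hL1, hW1]
      simp [val]
    · simp only [hLdef, hk, if_false]
      exact hL0v _
  have hLa : ∀ k, adj (L k) = 0 := by
    intro k
    by_cases hk : k = 1
    · subst hk
      rw [hL1]
      simp [adj]
    · simp only [hLdef, hk, if_false]
      exact hL0a _
  have hLn : ∀ k, ∀ p ∈ L k, p.2 ≠ 0 := by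
    intro k
    by_cases hk : k = 1
    · subst hk
      rw [hL1]
      intro p hp
      simp only [List.mem_cons, List.not_mem_nil, or_false] at hp
      rcases hp with rfl | rfl
      · exact hm0
      · exact hn0
    · simp only [hLdef, hk, if_false]
      exact hL0n _
  -- partitions
  have hex : ∀ j k : ℕ, ∃ B : List (Fin 2 × List ℤ), ∃ V : Finset ℤ, 1 ≤ j → 1 ≤ k →
      NC (inv (L (j + k)) ++ L j ++ L k) B ∧ cost B ≤ D ∧ V.card ≤ (2 * D + 1) * (D + 3) ∧
      ∀ b ∈ B, b.2 = [] ∨ (∃ x, b.2 = [x, -x]) ∨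
        (b.2.length ≤ D + 3 ∧ b.2.sum.natAbs ≤ D ∧ ∀ x ∈ b.2, x ∈ V) := by
    intro j k
    by_cases hjk : 1 ≤ j ∧ 1 ≤ k
    · have hval : val (inv (L (j + k)) ++ L j ++ L k) = (W (j + k))⁻¹ * (W j * W k) := by
        rw [w1, w1, w2, hLv, hLv, hLv, mul_assoc]
      have hs : Short D (val (inv (L (j + k)) ++ L j ++ L k)) := by
        rw [hval]; exact hW j k hjk.1 hjk.2
      obtain ⟨B, hB, hc⟩ := h1 D _ hs
      have hadj : adj (inv (L (j + k)) ++ L j ++ L k) ≤ 2 := w3 _ _ _ (hLa _) (hLa _) (hLa _)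
      have hnz : ∀ p ∈ inv (L (j + k)) ++ L j ++ L k, p.2 ≠ 0 := by
        intro p hp
        rw [List.mem_append, List.mem_append] at hp
        rcases hp with (hp | hp) | hp
        · simp only [inv, List.mem_reverse, List.mem_map] at hp
          obtain ⟨p', hp', rfl⟩ := hp
          simpa using hLn _ p' hp'
        · exact hLn _ p hp
        · exact hLn _ p hp
      obtain ⟨V, hV, hV2⟩ := h2 D _ B hB hc hadj hnz
      exact ⟨B, V, fun _ _ => ⟨hB, hc, hV, hV2⟩⟩
    · exact ⟨[], ∅, fun a b => absurd ⟨a, b⟩ hjk⟩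
  choose B V hBV using hex
  set S : Finset (ℕ × ℕ) := (Finset.range (K + 1) ×ˢ Finset.range (K + 1)).filter
    (fun p => 1 ≤ p.1 ∧ 1 ≤ p.2) with hS
  set VV : Finset ℤ := S.biUnion (fun p => V p.1 p.2) with hVV
  have hcard : VV.card ≤ T := by
    calc VV.card ≤ ∑ p ∈ S, (V p.1 p.2).card := Finset.card_biUnion_le
      _ ≤ ∑ p ∈ S, ((2 * D + 1) * (D + 3)) := by
          refine Finset.sum_le_sum ?_
          intro p hp
          rw [hS, Finset.mem_filter] at hp
          exact (hBV p.1 p.2 hp.2.1 hp.2.2).2.2.1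
      _ = S.card * ((2 * D + 1) * (D + 3)) := by rw [Finset.sum_const, smul_eq_mul]
      _ ≤ ((K + 1) * (K + 1)) * ((2 * D + 1) * (D + 3)) := by
          refine Nat.mul_le_mul_right _ ?_
          calc S.card ≤ (Finset.range (K + 1) ×ˢ Finset.range (K + 1)).card :=
                Finset.card_filter_le _ _
            _ = (K + 1) * (K + 1) := by rw [Finset.card_product, Finset.card_range]
      _ = T := rfl
  -- labels
  set ν : ℤ := if g' = 0 then (m : ℤ) else (n : ℤ) with hν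
  have hνbig : 2 * (D : ℤ) * (2 * ((D : ℤ) + 3) + 1) ^ T < ν := by
    have e1 : 2 * (D : ℤ) * (2 * ((D : ℤ) + 3) + 1) ^ T
        = ((2 * D * (2 * (D + 3) + 1) ^ T : ℕ) : ℤ) := by push_cast; ring
    rw [e1, hν]
    split_ifs
    · exact_mod_cast lt_of_lt_of_le (Nat.lt_succ_self _) hm
    · exact_mod_cast lt_of_lt_of_le (Nat.lt_succ_self _) hn
  obtain ⟨q, ρ, hq, hodd, hρν, hlabK⟩ := h4 D T ν hνbig VV hcard
  have hlab1 : lab ρ g' (L 1) = q := by
    rw [hL1, ← hρν, hν]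
    simp only [lab]
    rcases (by omega : g' = 0 ∨ g' = 1) with h | h
    · subst h; simp
    · subst h; simp
  have hH : ∀ j k : ℕ, 1 ≤ j → 1 ≤ k → j + k ≤ K → ∃ B : List (Fin 2 × List ℤ),
      NC (inv (L (j + k)) ++ L j ++ L k) B ∧ cost B ≤ D ∧
      ∀ b ∈ B, b.1 = g' → (b.2.map ρ).sum = 0 := by
    intro j k hj hk hjk
    obtain ⟨hNC, hc, _, hb⟩ := hBV j k hj hk
    refine ⟨B j k, hNC, hc, ?_⟩
    intro b hbB _
    rcases hb b hbB with h | ⟨x, hx⟩ | ⟨ha, hb', hc'⟩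
    · rw [h]; simp
    · rw [hx]; simp [hodd]
    · refine hlabK b.2 ?_ ha hb'
      intro x hx
      rw [hVV, Finset.mem_biUnion]
      refine ⟨(j, k), ?_, hc' x hx⟩
      rw [hS, Finset.mem_filter, Finset.mem_product, Finset.mem_range, Finset.mem_range]
      exact ⟨⟨by simp only; omega, by simp only; omega⟩, hj, hk⟩
  have hn := h6 D K ρ g' L hodd hH
  obtain ⟨E, hE⟩ := h7 D i q (fun k => hgt ρ g' (L k)) hD hi (by omega) (by
    intro j k hj hk hjk
    have := hn j k hj hk hjk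
    rw [hlab1] at this
    exact this)
  refine ⟨E, ?_⟩
  have hfin : sig (hgt ρ g' (L i)) = ex g (W i) := by
    rw [hsig, ← hLv i, w5]
    congr 1
    refine List.map_congr_left ?_
    intro p _
    by_cases hp : p.1 = g
    · have : ¬ p.1 = g' := fun h => ((hg' p.1).1 h) hp
      rw [if_neg this, if_pos hp]
    · have : p.1 = g' := (hg' p.1).2 hp
      rw [if_pos this, if_neg hp]
  rw [← hfin]
  exact hE

end Pool.Agent.Helper26.CK
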